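import Pool.Agent.H20.PIM3

namespace Pool.Agent.Results.MP_e0d88d_al.TwoGen

open Pool.Agent.H20.WAlg Pool.Agent.H20.PIM

universe u v

theorem result (F : Type u) [Field F] (A : Type v) [NonUnitalRing A] [Module F A]
    [IsScalarTower F A A] [SMulCommClass F A A]
    (hfg : ∃ s : Finset A, NonUnitalAlgebra.adjoin F (s : Set A) = ⊤) (hA : IsPI F A) :
    ∃ (B : Type (max u v)) (_ : NonUnitalRing B) (_ : Module F B) (_ : IsScalarTower F B B)
      (_ : SMulCommClass F B B),
      (∃ x y : B, NonUnitalAlgebra.adjoin F {x, y} = ⊤) ∧ IsPI F B ∧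
      ∃ φ : A →ₙₐ[F] B, Function.Injective φ := by
  obtain ⟨s, hs⟩ := hfg
  obtain ⟨n, x, y, h1, h2⟩ := main hA s hs
  exact ⟨NonUnitalAlgebra.adjoin F {x, y}, inferInstance, inferInstance, inferInstance,
    inferInstance, adjoin_top x y, h1, h2⟩

end Pool.Agent.Results.MP_e0d88d_al.TwoGen
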